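import Pool.Agent.Lib_helper12.TQ.Main

/-!
# Twenty Questions over ℂ: all or nothing

The least depth of a computation tree for Twenty Questions and the least complexity of a nonzero
polynomial which vanishes at `0, 1, ..., 2 ^ n - 1` are polynomially related. Twenty Questions is
solvable by polynomial-depth trees if and only if every family of sets of integer points is, if and only
if some dense family is (for example the primes), if and only if there are trees which accept a
polynomial fraction of `0, ..., 2 ^ n - 1` and reject a few complex numbers, if and only if a small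
fraction of the sets of a given superpolynomial size is.
-/

set_option autoImplicit false

namespace Pool.Agent.Results.MP_95ec10_lc.AllOrNothing

open Pool.Agent.TQ Polynomial
open scoped Classical

/-- The number of `k < 2 ^ n` with `P k`. -/
noncomputable def count (n : ℕ) (P : ℕ → Prop) : ℕ := ((Finset.range (2 ^ n)).filter P).card

/-- The number of sets `A ⊆ {0, ..., 2 ^ n - 1}` with `m` elements such that `x₁ ∈ A` is recognised by a
computation tree over `ℂ` with `n` inputs and depth at most `d`. -/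
noncomputable def countSets (n m d : ℕ) : ℕ :=
  ((Finset.powersetCard m (Finset.range (2 ^ n))).filter fun A =>
    ∃ T : CTree ℂ n 0, T.depth ≤ d ∧ T.lang = firstIn ℂ n {k | k ∈ A}).card

theorem result :
    (∀ n D L : ℕ, 1 ≤ n →
      ((∃ T : CTree ℂ n 0, T.depth ≤ D ∧ T.lang = TwentyQ ℂ n) →
        ∃ f : ℂ[X], f ≠ 0 ∧ Easy (2 * D) f ∧ ∀ k : ℕ, k < 2 ^ n → f.eval (k : ℂ) = 0) ∧
      ((∃ f : ℂ[X], f ≠ 0 ∧ Easy L f ∧ ∀ k : ℕ, k < 2 ^ n → f.eval (k : ℂ) = 0) →
        ∀ A : Set ℕ, ∃ T : CTree ℂ n 0, T.depth ≤ 2 + 2048 * n ^ 2 * (L + 3) ^ 2 ∧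
          T.lang = firstIn ℂ n {k | k < 2 ^ n ∧ k ∈ A})) ∧
    ∀ M : ℕ → ℕ, (∀ n, M n ≤ 2 ^ n) →
      (∀ q : Polynomial ℕ, ∀ᶠ n in Filter.atTop, q.eval n < M n) → List.TFAE [
      -- (1) Twenty Questions over `ℂ`
      Solvable ℂ (TwentyQ ℂ),
      -- (2) Twenty Questions over `ℝ` with equality tests
      Solvable ℝ (TwentyQ ℝ),
      -- (3) every family of sets of integer points
      ∀ A : (n : ℕ) → Set (Fin n → ℕ),
        Solvable ℂ fun n => {x | ∃ s ∈ A n, (∀ i, s i < 2 ^ n) ∧ ∀ i, x i = (s i : ℂ)},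
      -- (4) every family of sets of integers
      ∀ A : ℕ → Set ℕ, Solvable ℂ fun n => firstIn ℂ n {k | k < 2 ^ n ∧ k ∈ A n},
      -- (5) some dense family of sets of integers
      ∃ (A : ℕ → Set ℕ) (q : Polynomial ℕ),
        (∀ᶠ n in Filter.atTop, 2 ^ n ≤ q.eval n * count n fun k => k ∈ A n) ∧
        Solvable ℂ fun n => firstIn ℂ n {k | k < 2 ^ n ∧ k ∈ A n},
      -- (6) the primes
      Solvable ℂ fun n => firstIn ℂ n {k | k < 2 ^ n ∧ k.Prime},
      -- (7) trees which are correct on few points only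
      ∃ p q : Polynomial ℕ, ∀ᶠ n in Filter.atTop, ∃ (T : CTree ℂ n 0) (z : Fin n → ℂ),
        T.depth ≤ p.eval n ∧
        2 ^ n ≤ q.eval n * (count n fun k => setFirst z (k : ℂ) ∈ T.lang) ∧
        ((4 ^ p.eval n : ℕ) : ℕ∞) < Set.encard {y | setFirst z y ∉ T.lang},
      -- (8) a small fraction of the sets with `M n` elements
      ∃ p r : Polynomial ℕ, ∀ᶠ n in Filter.atTop,
        (2 ^ n).choose (M n) ≤ 2 ^ r.eval n * countSets n (M n) (p.eval n),
      -- (9) easy polynomials with many integer roots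
      ∃ p q : Polynomial ℕ, ∀ᶠ n in Filter.atTop, ∃ f : ℂ[X], f ≠ 0 ∧ Easy (p.eval n) f ∧
        2 ^ n ≤ q.eval n * count n fun k => f.eval (k : ℂ) = 0,
      -- (10) easy polynomials which vanish at all integers in the interval
      ∃ p : Polynomial ℕ, ∀ n, 1 ≤ n → ∃ f : ℂ[X], f ≠ 0 ∧ Easy (p.eval n) f ∧
        ∀ k : ℕ, k < 2 ^ n → f.eval (k : ℂ) = 0] := by
  refine ⟨fun n D L hn => ⟨?_, ?_⟩, fun M hM hsup => ?_⟩
  · rintro ⟨T, hT, hL⟩
    exact tree_first hn T hT hL
  · rintro ⟨f, hf0, hf, hz⟩ A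
    exact first_tree hn f hf0 hf hz A
  · tfae_have 10 → 1 := fun h => full_TQ h
    tfae_have 10 → 2 := fun h => full_TQ (full_complex_real h)
    tfae_have 10 → 3 := fun h => full_grid h
    tfae_have 10 → 4 := fun h => full_first h
    tfae_have 10 → 8 := fun h => full_sets h M
    tfae_have 1 → 10 := fun h => TQ_full h
    tfae_have 2 → 10 := fun h => full_real_complex (TQ_full h)
    tfae_have 3 → 7 := fun h => grid_trees h
    tfae_have 4 → 6 := fun h => h fun _ => {k | k.Prime}
    tfae_have 6 → 5 := fun h => ⟨fun _ => {k | k.Prime}, 2 * X, by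
      filter_upwards [Filter.eventually_ge_atTop 3] with n hn
      have e : (2 * X : Polynomial ℕ).eval n = 2 * n := by simp
      rw [e]
      refine (prime_dense n hn).trans (le_of_eq ?_)
      simp only [count]
      congr!, h⟩
    tfae_have 5 → 7 := fun ⟨A, q, hq, h⟩ => dense_trees A q hq h
    tfae_have 7 → 9 := fun h => trees_poly h
    tfae_have 8 → 9 := fun h => sets_poly M hM hsup h
    tfae_have 9 → 10 := fun h => dense_full h
    tfae_finish

end Pool.Agent.Results.MP_95ec10_lc.AllOrNothing
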